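import Pool.Agent.L5helper93.FU.Main

/-!
# MP_a65497_an: the pairs `(d, 2)` have the uniqueness property for all `d ≥ 9`

`Uniqueness d k` is the uniqueness property of the pair `(d, k)` of the question.

1. `(d, 2)` has the uniqueness property for every `d ≥ 9`.
2. More generally let `d ≥ 9`, and let `a`, `b` be any real numbers. If a radial Schwartz function
   `f` and its radial derivative vanish at all radii `√(2n + a)`, and the Fourier transform of `f` and
   its radial derivative vanish at all radii `√(2n + b)` (`n` the integers for which the number under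
   the root is positive), then `f = 0`. For `a = b = 0` these are the radii `√(2n)`, `n ≥ 1`.

The proof. Let `φ_f (y) = ∫ f(x) exp(i π y |x|²) dx`. By the Poisson summation formula the values of
`u φ_f(u) e^(-iπau)` and of `φ_f(u) e^(-iπau)` over `u ∈ y + ℤ` have sum zero, and
`|φ_f(-1/y)| = |y|^(d/2) |φ_g(y)|`, `g` the Fourier transform of `f`. Lagrange interpolation at the
two points of `y + ℤ` in `[-1, 1]` gives the inequality that the integral of `|u| |φ_f(u)|` over
`[-1, 1]` is at most the integral over `|u| > 1`, which is equal to the integral of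
`|u|^(d/2-3) |φ_g(u)|` over `[-1, 1]`. For `d/2 - 3 > 1` this is a contradiction unless `f = 0`.
-/

set_option autoImplicit false

open scoped FourierTransform

namespace Pool.Agent.Results.MP_a65497_an.DoubleZeros

/-- The uniqueness property of `(d, k)`: a radial Schwartz function on `ℝ^d` for which the
derivatives of order `0, ..., k - 1` of the profile and of the profile of the Fourier transform vanish
at all radii `√(k n)`, `n ≥ 0`, is zero. -/
def Uniqueness (d k : ℕ) : Prop :=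
  ∀ hd : 0 < d, ∀ f : SchwartzMap (EuclideanSpace ℝ (Fin d)) ℂ,
    (∀ x y : EuclideanSpace ℝ (Fin d), ‖x‖ = ‖y‖ → f x = f y) →
    (∀ n : ℕ, ∀ j : ℕ, j < k →
      iteratedDeriv j
          (fun t : ℝ => f (t • EuclideanSpace.single (⟨0, hd⟩ : Fin d) (1 : ℝ)))
          (Real.sqrt ((k : ℝ) * (n : ℝ))) = 0 ∧
      iteratedDeriv j
          (fun t : ℝ => (𝓕 (f : EuclideanSpace ℝ (Fin d) → ℂ))
            (t • EuclideanSpace.single (⟨0, hd⟩ : Fin d) (1 : ℝ)))
          (Real.sqrt ((k : ℝ) * (n : ℝ))) = 0) →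
    f = 0

/-- the case of arbitrary shifts -/
theorem shifts (d : ℕ) (hd : 9 ≤ d) (f : SchwartzMap (EuclideanSpace ℝ (Fin d)) ℂ)
    (hrad : ∀ x y : EuclideanSpace ℝ (Fin d), ‖x‖ = ‖y‖ → f x = f y)
    (e : EuclideanSpace ℝ (Fin d)) (he : ‖e‖ = 1) (a b : ℝ)
    (h : ∀ n : ℤ, 0 < 2 * (n : ℝ) + a → f (Real.sqrt (2 * n + a) • e) = 0 ∧
      deriv (fun t : ℝ => f (t • e)) (Real.sqrt (2 * n + a)) = 0)
    (h' : ∀ n : ℤ, 0 < 2 * (n : ℝ) + b →
      (𝓕 (f : EuclideanSpace ℝ (Fin d) → ℂ)) (Real.sqrt (2 * n + b) • e) = 0 ∧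
      deriv (fun t : ℝ => (𝓕 (f : EuclideanSpace ℝ (Fin d) → ℂ)) (t • e))
        (Real.sqrt (2 * n + b)) = 0) :
    f = 0 := by
  obtain ⟨n, rfl⟩ : ∃ n, d = n + 4 := ⟨d - 4, by omega⟩
  exact Pool.Agent.L5helper93.FU.main (by omega) e he f hrad a b h h'

theorem result :
    -- (1) the pairs `(d, 2)`, `d ≥ 9`
    (∀ d : ℕ, 9 ≤ d → Uniqueness d 2) ∧
    -- (2) arbitrary shifts of the radii
    (∀ d : ℕ, 9 ≤ d → ∀ f : SchwartzMap (EuclideanSpace ℝ (Fin d)) ℂ,
      (∀ x y : EuclideanSpace ℝ (Fin d), ‖x‖ = ‖y‖ → f x = f y) →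
      ∀ e : EuclideanSpace ℝ (Fin d), ‖e‖ = 1 → ∀ a b : ℝ,
      (∀ n : ℤ, 0 < 2 * (n : ℝ) + a → f (Real.sqrt (2 * n + a) • e) = 0 ∧
        deriv (fun t : ℝ => f (t • e)) (Real.sqrt (2 * n + a)) = 0) →
      (∀ n : ℤ, 0 < 2 * (n : ℝ) + b →
        (𝓕 (f : EuclideanSpace ℝ (Fin d) → ℂ)) (Real.sqrt (2 * n + b) • e) = 0 ∧
        deriv (fun t : ℝ => (𝓕 (f : EuclideanSpace ℝ (Fin d) → ℂ)) (t • e))
          (Real.sqrt (2 * n + b)) = 0) →
      f = 0) := by
  refine ⟨fun d hd hd0 f hrad h => ?_, fun d hd f hrad e he a b h h' =>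
    shifts d hd f hrad e he a b h h'⟩
  have key : ∀ n : ℤ, 0 < 2 * (n : ℝ) + (0 : ℝ) → ∃ k : ℕ,
      Real.sqrt (2 * n + (0 : ℝ)) = Real.sqrt (((2 : ℕ) : ℝ) * (k : ℝ)) := by
    intro n hn
    rw [add_zero] at hn
    have h0 : (0 : ℤ) ≤ n := by
      have : (0 : ℝ) < n := by linarith
      exact_mod_cast this.le
    obtain ⟨k, rfl⟩ := Int.eq_ofNat_of_zero_le h0
    exact ⟨k, by push_cast; rw [add_zero]⟩
  refine shifts d hd f hrad (EuclideanSpace.single (⟨0, hd0⟩ : Fin d) (1 : ℝ)) (by simp) 0 0 ?_ ?_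
  · intro n hn
    obtain ⟨k, hk⟩ := key n hn
    have h1 := (h k 0 (by norm_num)).1
    have h2 := (h k 1 (by norm_num)).1
    rw [iteratedDeriv_zero] at h1
    rw [iteratedDeriv_one] at h2
    rw [hk]
    exact ⟨h1, h2⟩
  · intro n hn
    obtain ⟨k, hk⟩ := key n hn
    have h1 := (h k 0 (by norm_num)).2
    have h2 := (h k 1 (by norm_num)).2
    rw [iteratedDeriv_zero] at h1
    rw [iteratedDeriv_one] at h2
    rw [hk]
    exact ⟨h1, h2⟩

end Pool.Agent.Results.MP_a65497_an.DoubleZeros
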